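import Mathlib
import Pool.Agent.Work.MP_5e5ff1_ag.O.Final

/-! # One prime with vanishing p-curvature gives a unitary triple

Let `f' = (b/n / t + c/n / (t-1)) f` be a system of rank `r`, where `b`, `c` are matrices with
entries in the ring of integers of a number field `K`, and let `P` be a maximal ideal, of residue
characteristic `p`, which does not contain `n`. If the p-curvature vanishes modulo this single
ideal `P`, then there are integers `0 ≤ m (i, j) < p` whose classes modulo `p` are the eigenvalues
of the residues `b / n`, `c / n`, `- (b + c) / n` modulo `P`, and unitary matrices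
`M 0, M 1, M 2` with `M 0 * M 1 * M 2 = 1` such that the eigenvalues of `M i` are the numbers
`exp (2 π i m (i, j) / p)`. If `b` and `c` modulo `P` generate the algebra of all matrices (that is,
the reduction is absolutely irreducible), then `M 0, M 1, M 2` have no common invariant subspace.

There is no condition on the size of `p`, on the exponents of the system in characteristic zero or
on other primes.

Proof. By Cartier the system modulo `P` is the Frobenius pullback of a bundle, which carries a
parabolic structure with the weights `m (i, j) / p`. Its subbundles of parabolic degree zero are the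
constant subspaces which are invariant under `b` and `c`, there are none of positive parabolic
degree. A stable bundle lifts to a stable bundle over `ℂ` with the same weights (through a valuation
ring of `ℂ` with residue characteristic `p`), to which the theorem of Mehta and Seshadri, proved in
the imported files for three points, applies. -/

open Polynomial Matrix NumberField

namespace Pool.Agent.Results.MP_5e5ff1_ag.OnePrime

open Pool.Agent.Work.MP_5e5ff1_ag

theorem result (K : Type) [Field K] [NumberField K] (r n : ℕ)
    (b c : Matrix (Fin r) (Fin r) (𝓞 K)) (P : Ideal (𝓞 K)) (hP : P.IsMaximal)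
    (hn : (n : 𝓞 K) ∉ P) (hψ : PCurvZero n b c P) :
    ∃ (m : Fin 3 → Fin r → ℕ) (M : Fin 3 → Matrix.unitaryGroup (Fin r) ℂ),
      (∀ i j, m i j < ringChar (𝓞 K ⧸ P)) ∧
      (b.map (Ideal.Quotient.mk P)).charpoly
        = ∏ j, (X - C ((n : 𝓞 K ⧸ P) * (m 0 j : 𝓞 K ⧸ P))) ∧
      (c.map (Ideal.Quotient.mk P)).charpoly
        = ∏ j, (X - C ((n : 𝓞 K ⧸ P) * (m 1 j : 𝓞 K ⧸ P))) ∧
      ((-(b + c)).map (Ideal.Quotient.mk P)).charpoly
        = ∏ j, (X - C ((n : 𝓞 K ⧸ P) * (m 2 j : 𝓞 K ⧸ P))) ∧
      M 0 * M 1 * M 2 = 1 ∧
      (∀ i, (M i : Matrix (Fin r) (Fin r) ℂ).charpoly = ∏ j, (X - C (Complex.exp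
        (2 * Real.pi * Complex.I * ((m i j : ℂ) / (ringChar (𝓞 K ⧸ P) : ℂ)))))) ∧
      (Algebra.adjoin (𝓞 K ⧸ P) {b.map (Ideal.Quotient.mk P), c.map (Ideal.Quotient.mk P)} = ⊤ →
        ∀ U : Submodule ℂ (Fin r → ℂ),
          (∀ i, U.map (M i : Matrix (Fin r) (Fin r) ℂ).mulVecLin ≤ U) → U = ⊥ ∨ U = ⊤) :=
  Pool.Agent.MSU.one_prime_nf K r n b c P hP hn hψ

end Pool.Agent.Results.MP_5e5ff1_ag.OnePrime
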