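import Mathlib
import Pool.Agent.Work.MP_5e5ff1_ag.M.All
import Pool.Agent.Work.MP_5e5ff1_ag.M.Final

/-! # The unitary companion of an irreducible system with vanishing p-curvatures

Let `f' = (b/n / t + c/n / (t-1)) f` be an irreducible system of rank `r` over a number field `K`
with rational exponents `e (i, j)` (the eigenvalues of the residues `b / n`, `c / n`,
`- (b + c) / n` at `0, 1, ∞`) with common denominator `N`, and let `u a = 1` modulo `N`. Assume that
the p-curvature vanishes at infinitely many primes whose residue characteristic is congruent to `a`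
modulo `N`.

Then, for every embedding of `K` in `ℂ`, there is an irreducible unitary representation of the
fundamental group of the projective line minus `0, 1, ∞`, given by unitary matrices
`ρ 0, ρ 1, ρ 2` with `ρ 0 * ρ 1 * ρ 2 = 1`, with the following properties. The eigenvalues of `ρ i`
are the numbers `exp (- 2 π i u e (i, j))`, the Galois conjugates of the eigenvalues
`exp (- 2 π i e (i, j))` of the local monodromy of the system. For every point `x` different from
`0, 1` there is an isomorphism of the fibre of the system at `x` with `ℂ^r` under which, for all `m`,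
the fibres of the subsystems of the tensor power `(1 ⊕ V)^{⊗ m}` of the system are the invariant
subspaces of the tensor power `(1 ⊕ ρ)^{⊗ m}`. And the system has a full set of algebraic solutions
if and only if the image of the representation is finite. -/

open Polynomial Matrix NumberField

namespace Pool.Agent.Results.MP_5e5ff1_ag.UnitaryCompanion

open Pool.Agent.Work.MP_5e5ff1_ag Pool.Agent.Work.MP_5e5ff1_ag.T Pool.Agent.Work.MP_5e5ff1_ag.A
open Pool.Agent.MSU.All

theorem result (K : Type) [Field K] [NumberField K] (σ : K →+* ℂ) (r n N : ℕ) (hn : 0 < n)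
    (hN : 0 < N) (b c : Matrix (Fin r) (Fin r) (𝓞 K)) (e : Fin 3 × Fin r → ℚ)
    (he : ∀ i, ∃ s : ℤ, e i = s / N) (hexp : IsExponents n b c e) (a : ℕ) (u : ℤ)
    (hu : (N : ℤ) ∣ u * a - 1)
    (hinf : {P : Ideal (𝓞 K) | P.IsMaximal ∧ ringChar (𝓞 K ⧸ P) ≡ a [MOD N] ∧
      PCurvZero n b c P}.Infinite)
    (B D : Matrix (Fin r) (Fin r) ℂ) (hB : ∀ i j, B i j = σ (b i j : K) / n)
    (hD : ∀ i j, D i j = σ (c i j : K) / n) (hirr : IrreducibleSystem B D) :
    ∃ ρ : Fin 3 → Matrix.unitaryGroup (Fin r) ℂ,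
      ρ 0 * ρ 1 * ρ 2 = 1 ∧
      (∀ i, (ρ i : Matrix (Fin r) (Fin r) ℂ).charpoly
        = ∏ j, (X - C (Complex.exp (-(2 * Real.pi * Complex.I * (u * ((e (i, j) : ℚ) : ℂ))))))) ∧
      (∀ U : Submodule ℂ (Fin r → ℂ),
        (∀ i, U.map (ρ i : Matrix (Fin r) (Fin r) ℂ).mulVecLin ≤ U) → U = ⊥ ∨ U = ⊤) ∧
      (∀ x : ℂ, x ≠ 0 → x ≠ 1 → ∃ S : Matrix (Fin r) (Fin r) ℂ, S.det ≠ 0 ∧ ∀ m : ℕ,
        connFibres (tensAdd m B) (tensAdd m D) x
          = Submodule.map (tens m S).mulVecLin ''
            {U | ∀ i, U.map (tens m (ρ i : Matrix (Fin r) (Fin r) ℂ)).mulVecLin ≤ U}) ∧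
      (HasAlgebraicSolutions B D ↔ Finite (Subgroup.closure (Set.range ρ))) := by
  obtain ⟨Φ, g₀, g₁, w, -, -, -, -, -, -, -, -, -, -, h⟩ :=
    M.unitary_main h_N_Main h_M_St h_M_Col h_M_Tens h_M_Fib h_M_Irr h_M_Prod h_M_Grp σ hn hN he hexp
      hu hinf hB hD
  obtain ⟨ρ, h1, h2, h3, -, h5, h6⟩ := h hirr
  exact ⟨ρ, h1, h2, h3, h5, h6⟩

end Pool.Agent.Results.MP_5e5ff1_ag.UnitaryCompanion
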