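import Mathlib
import Pool.Agent.Work.MP_5e5ff1_ag.U.Final

/-! # The torsion cosets of the exponents of systems with vanishing p-curvatures

For every rank `r` there are a number `B` and a finite list `L` of torsion cosets `T` in the space
of `3 r` real exponents modulo one, such that every point of `T` is the family of the exponents of
three unitary matrices with product one, and it and its negative are the weights modulo one of
semistable parabolic bundles of degree zero on the projective line with the points `0, 1, ∞`. The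
rational points of the cosets are exactly the rational points all of whose multiples by the units
modulo the denominator have these properties. Every system over a number field with rational
exponents `e` (common denominator `N`) has `e` in one of the cosets, or there is a set `A` of units
modulo `N`, of proportion at least `1 / B`, such that the p-curvature does not vanish at any prime
(prime to `n N`) of residue characteristic `p > B max |e|` with `p` modulo `N` in `A`. Moreover, if
the p-curvature vanishes at infinitely many primes of residue characteristic congruent to `a`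
modulo `N`, and `u a = 1` modulo `N`, then `u e` has the properties above. -/

open Polynomial Matrix NumberField

namespace Pool.Agent.Results.MP_5e5ff1_ag.UnitaryCosets

open Pool.Agent.Work.MP_5e5ff1_ag Pool.Agent.Work.MP_5e5ff1_ag.S Pool.Agent.Work.MP_5e5ff1_ag.U

theorem result (r : ℕ) (hr : 0 < r) :
    ∃ (L : Finset (Finset ((Fin 3 × Fin r → ℤ) × ℚ))) (B : ℕ),
      (∀ T ∈ L, (∃ w : Fin 3 × Fin r → ℝ, Solves T w) ∧
        (∀ w : Fin 3 × Fin r → ℝ, Solves T w → UnitaryExponents w ∧
          SemistableWeights w ∧ SemistableWeights (fun i => -w i) ∧ Interlacing w) ∧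
        r ≤ relRank T ∧
        ∀ a : Fin 3, (∃ e ∈ T, ∃ j j' : Fin r, e.1 (a, j) ≠ e.1 (a, j')) ∨
          ∀ b : Fin 3, a ≠ b → ∀ w : Fin 3 × Fin r → ℝ, Solves T w →
            EvenlySpaced (fun j => w (b, j))) ∧
      (∀ (N : ℕ) (e : Fin 3 × Fin r → ℚ), 0 < N → (∀ i, ∃ s : ℤ, e i = s / N) →
        ((∃ T ∈ L, Solves T (fun i => ((e i : ℚ) : ℝ))) ↔ ∀ u : ℤ, IsCoprime u (N : ℤ) →
          UnitaryExponents (fun i => (u : ℝ) * ((e i : ℚ) : ℝ)) ∧
            SemistableWeights (fun i => (u : ℝ) * ((e i : ℚ) : ℝ)) ∧
            SemistableWeights (fun i => -((u : ℝ) * ((e i : ℚ) : ℝ))))) ∧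
      ∀ (K : Type) [Field K] [NumberField K] (n N : ℕ) (b c : Matrix (Fin r) (Fin r) (𝓞 K))
        (e : Fin 3 × Fin r → ℚ), 0 < n → 0 < N → (∀ i, ∃ s : ℤ, e i = s / N) →
        IsExponents n b c e →
        (∀ (a : ℕ) (u : ℤ), (N : ℤ) ∣ u * a - 1 →
          {P : Ideal (𝓞 K) | P.IsMaximal ∧ ringChar (𝓞 K ⧸ P) ≡ a [MOD N] ∧
            PCurvZero n b c P}.Infinite →
          UnitaryExponents (fun i => (u : ℝ) * ((e i : ℚ) : ℝ)) ∧
            SemistableWeights (fun i => (u : ℝ) * ((e i : ℚ) : ℝ)) ∧
            SemistableWeights (fun i => -((u : ℝ) * ((e i : ℚ) : ℝ))) ∧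
            Interlacing (fun i => (u : ℝ) * ((e i : ℚ) : ℝ))) ∧
        ((∃ T ∈ L, Solves T (fun i => ((e i : ℚ) : ℝ))) ∨
          ∃ A : Finset (ZMod N)ˣ, N.totient ≤ B * A.card ∧
            ∀ P : Ideal (𝓞 K), P.IsMaximal → (n : 𝓞 K) * (N : 𝓞 K) ∉ P →
              (∃ a ∈ A, (a : ZMod N) = (ringChar (𝓞 K ⧸ P) : ZMod N)) →
              (∀ i, (B : ℚ) * |e i| < (ringChar (𝓞 K ⧸ P) : ℚ)) → ¬ PCurvZero n b c P) :=
  uni_structure r hr

end Pool.Agent.Results.MP_5e5ff1_ag.UnitaryCosets
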